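import Pool.Agent.H50.ODG.Targets

/-!
# Rows LNE and NSK of board odg_modules (MP_397744_co)
-/

set_option autoImplicit false

namespace Pool.Agent.H42.ODG

open Pool.Agent.H57.CP Pool.Agent.H39.TO Pool.Agent.H39.OD Pool.Agent.H50.ODG

theorem mk_cm (x y : V4) : mk x y = mk y x := by
  unfold mk
  ring

theorem mk_ad (x y z : V4) : mk x (y + z) = mk x y + mk x z := by
  unfold mk
  simp only [Pi.add_apply]
  ring

theorem mk_sb (x y z : V4) : mk x (y - z) = mk x y - mk x z := by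
  unfold mk
  simp only [Pi.sub_apply]
  ring

theorem mk_sm (c : ℝ) (x y : V4) : mk x (c • y) = c * mk x y := by
  unfold mk
  simp only [Pi.smul_apply, smul_eq_mul]
  ring

theorem ad_mk (x y z : V4) : mk (x + y) z = mk x z + mk y z := by
  unfold mk
  simp only [Pi.add_apply]
  ring

theorem sm_mk (c : ℝ) (x y : V4) : mk (c • x) y = c * mk x y := by
  unfold mk
  simp only [Pi.smul_apply, smul_eq_mul]
  ring

/-- a vector orthogonal to a timelike vector is spacelike or zero -/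
theorem spacelike (O : H3) (w : V4) (h : mk O.1 w = 0) (hw : 0 ≤ mk w w) : w = 0 := by
  have h1 := O.2.1
  have h2 := O.2.2
  unfold mk at h hw h1
  have cs : (O.1 0 * w 0 + O.1 1 * w 1 + O.1 2 * w 2) ^ 2 ≤
      (O.1 0 ^ 2 + O.1 1 ^ 2 + O.1 2 ^ 2) * (w 0 ^ 2 + w 1 ^ 2 + w 2 ^ 2) := by
    nlinarith [sq_nonneg (O.1 0 * w 1 - O.1 1 * w 0), sq_nonneg (O.1 0 * w 2 - O.1 2 * w 0),
      sq_nonneg (O.1 1 * w 2 - O.1 2 * w 1)]
  have e1 : O.1 0 * w 0 + O.1 1 * w 1 + O.1 2 * w 2 = O.1 3 * w 3 := by linarith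
  have e2 : O.1 0 ^ 2 + O.1 1 ^ 2 + O.1 2 ^ 2 = O.1 3 ^ 2 - 1 := by linarith
  rw [e1, e2] at cs
  have h3 : w 0 ^ 2 + w 1 ^ 2 + w 2 ^ 2 ≤ w 3 ^ 2 := by linarith
  have h4 : 0 ≤ O.1 3 ^ 2 - 1 := by
    rw [← e2]
    positivity
  have h5 : (O.1 3 ^ 2 - 1) * (w 0 ^ 2 + w 1 ^ 2 + w 2 ^ 2) ≤ (O.1 3 ^ 2 - 1) * w 3 ^ 2 :=
    mul_le_mul_of_nonneg_left h3 h4
  have h6 : w 3 ^ 2 ≤ 0 := by nlinarith
  have h7 : w 3 = 0 := by
    have := sq_nonneg (w 3)
    exact pow_eq_zero_iff (two_ne_zero) |>.1 (le_antisymm h6 this)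
  rw [h7] at h3
  have g0 := sq_nonneg (w 0)
  have g1 := sq_nonneg (w 1)
  have g2 := sq_nonneg (w 2)
  have k0 : w 0 = 0 := pow_eq_zero_iff (two_ne_zero) |>.1 (by nlinarith)
  have k1 : w 1 = 0 := pow_eq_zero_iff (two_ne_zero) |>.1 (by nlinarith)
  have k2 : w 2 = 0 := pow_eq_zero_iff (two_ne_zero) |>.1 (by nlinarith)
  funext i
  fin_cases i
  · exact k0
  · exact k1
  · exact k2
  · exact h7

/-- the product of two points is positive -/
theorem mk_pos (y y' : H3) : 0 < mk y.1 y'.1 := by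
  have h1 := y.2.1
  have h2 := y.2.2
  have h3 := y'.2.1
  have h4 := y'.2.2
  unfold mk at h1 h3 ⊢
  have cs : (y.1 0 * y'.1 0 + y.1 1 * y'.1 1 + y.1 2 * y'.1 2) ^ 2 ≤
      (y.1 0 ^ 2 + y.1 1 ^ 2 + y.1 2 ^ 2) * (y'.1 0 ^ 2 + y'.1 1 ^ 2 + y'.1 2 ^ 2) := by
    nlinarith [sq_nonneg (y.1 0 * y'.1 1 - y.1 1 * y'.1 0),
      sq_nonneg (y.1 0 * y'.1 2 - y.1 2 * y'.1 0),
      sq_nonneg (y.1 1 * y'.1 2 - y.1 2 * y'.1 1)]
  have e1 : y.1 0 ^ 2 + y.1 1 ^ 2 + y.1 2 ^ 2 = y.1 3 ^ 2 - 1 := by linarith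
  have e2 : y'.1 0 ^ 2 + y'.1 1 ^ 2 + y'.1 2 ^ 2 = y'.1 3 ^ 2 - 1 := by linarith
  rw [e1, e2] at cs
  have p1 : 0 ≤ y.1 3 ^ 2 - 1 := by rw [← e1]; positivity
  have p2 : 0 ≤ y'.1 3 ^ 2 - 1 := by rw [← e2]; positivity
  have h5 : (y.1 3 ^ 2 - 1) * (y'.1 3 ^ 2 - 1) < (y.1 3 * y'.1 3) ^ 2 := by nlinarith
  have h6 := abs_lt_of_sq_lt_sq (lt_of_le_of_lt cs h5) (by positivity)
  rw [abs_lt] at h6
  linarith [h6.2]

theorem pf_LNE : T_LNE := by
  intro y y' n0 n1 n2 hN a1 a2 b1 b2 u1 u2 hc hS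
  obtain ⟨r, s, t, hd⟩ := hS
  have c1 : mk (y.1 - y'.1) n1 = 0 := by
    rw [mk_cm, mk_sb, mk_cm n1, mk_cm n1, a1, b1, sub_zero]
  have c2 : mk (y.1 - y'.1) n2 = 0 := by
    rw [mk_cm, mk_sb, mk_cm n2, mk_cm n2, a2, b2, sub_zero]
  by_cases hr : r = 0
  · rw [hd, hr] at c1 c2
    simp only [zero_smul, zero_add, ad_mk, sm_mk] at c1 c2
    rw [u1, mk_cm n2 n1] at c1
    rw [u2] at c2
    have h1 : s = t * mk n1 n2 := by linarith
    have h2 : t = s * mk n1 n2 := by linarith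
    have h3 : s * (1 - mk n1 n2 ^ 2) = 0 := by
      have : s = s * mk n1 n2 ^ 2 := by
        calc s = t * mk n1 n2 := h1
          _ = (s * mk n1 n2) * mk n1 n2 := by rw [← h2]
          _ = s * mk n1 n2 ^ 2 := by ring
      linarith
    have h4 : s = 0 := by
      rcases mul_eq_zero.1 h3 with h | h
      · exact h
      · linarith
    have h5 : t = 0 := by rw [h2, h4, zero_mul]
    rw [hr, h4, h5] at hd
    simp only [zero_smul, add_zero] at hd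
    exact Subtype.ext (sub_eq_zero.1 hd)
  · exfalso
    have h1 : mk (y.1 + y'.1) (y.1 - y'.1) = 0 := by
      rw [mk_sb, ad_mk, ad_mk, y.2.1, y'.2.1, mk_cm y'.1 y.1]
      ring
    have h2 : mk (y.1 + y'.1) n1 = 0 := by rw [ad_mk, a1, b1, add_zero]
    have h3 : mk (y.1 + y'.1) n2 = 0 := by rw [ad_mk, a2, b2, add_zero]
    rw [hd, mk_ad, mk_ad, mk_sm, mk_sm, mk_sm, h2, h3, mul_zero, mul_zero, add_zero,
      add_zero] at h1
    have h4 : mk (y.1 + y'.1) n0 = 0 := by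
      rcases mul_eq_zero.1 h1 with h | h
      · exact absurd h hr
      · exact h
    have h5 : mk (y.1 + y'.1) (y.1 + y'.1) = 2 + 2 * mk y.1 y'.1 := by
      rw [mk_ad, ad_mk, ad_mk, y.2.1, y'.2.1, mk_cm y'.1 y.1]
      ring
    have h6 := mk_pos y y'
    obtain ⟨q, hq⟩ : ∃ q, q = mk (y.1 + y'.1) (y.1 + y'.1) := ⟨_, rfl⟩
    have hq0 : 0 < q := by rw [hq, h5]; linarith
    have hsq : Real.sqrt q * Real.sqrt q = q := Real.mul_self_sqrt hq0.le
    have hs0 : 0 < Real.sqrt q := Real.sqrt_pos.2 hq0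
    refine hN ⟨⟨(Real.sqrt q)⁻¹ • (y.1 + y'.1), ?_, ?_⟩, ?_, ?_, ?_⟩
    · rw [mk_sm, sm_mk, ← hq]
      field_simp
      linarith
    · have p1 := y.2.2
      have p2 := y'.2.2
      show 0 < (Real.sqrt q)⁻¹ * (y.1 3 + y'.1 3)
      positivity
    · show mk ((Real.sqrt q)⁻¹ • (y.1 + y'.1)) n0 = 0
      rw [sm_mk, h4, mul_zero]
    · show mk ((Real.sqrt q)⁻¹ • (y.1 + y'.1)) n1 = 0
      rw [sm_mk, h2, mul_zero]
    · show mk ((Real.sqrt q)⁻¹ • (y.1 + y'.1)) n2 = 0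
      rw [sm_mk, h3, mul_zero]

theorem pf_NSK : T_NSK := by
  intro u v w x x' n0 n1 n2 hC hu hv hw hs
  rintro ⟨O, o0, o1, o2⟩
  have hpi := Real.pi_pos
  have hu' : (0 : ℝ) < u := by exact_mod_cast hu
  have hv' : (0 : ℝ) < v := by exact_mod_cast hv
  have hw' : (0 : ℝ) < w := by exact_mod_cast hw
  have hs' : (u : ℝ) + v + w ≤ 1 := by exact_mod_cast hs
  have su : 0 < sn u := Real.sin_pos_of_pos_of_lt_pi (by positivity) (by nlinarith)
  have sv : 0 < sn v := Real.sin_pos_of_pos_of_lt_pi (by positivity) (by nlinarith)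
  have hk : sn u * sn v ≤ cn w + cn u * cn v := by
    have h1 : Real.cos (Real.pi - (u + v) * Real.pi) ≤ cn w := by
      unfold cn
      refine Real.cos_le_cos_of_nonneg_of_le_pi (by positivity) ?_ ?_
      · have : 0 ≤ ((u : ℝ) + v) * Real.pi := by positivity
        linarith
      · nlinarith
    have h2 : Real.cos (Real.pi - (u + v) * Real.pi) = sn u * sn v - cn u * cn v := by
      rw [Real.cos_pi_sub, add_mul, Real.cos_add]
      unfold sn cn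
      ring
    linarith
  obtain ⟨W, hW⟩ : ∃ W : V4, W = sn v • (n0 + cn u • n2) + sn u • (n1 + cn v • n2) := ⟨_, rfl⟩
  have hc1 : cn u ^ 2 = 1 - sn u ^ 2 := by
    unfold cn sn
    exact Real.cos_sq' _
  have hc2 : cn v ^ 2 = 1 - sn v ^ 2 := by
    unfold cn sn
    exact Real.cos_sq' _
  have e1 : mk W W = 2 * (sn u * sn v) * (cn w + cn u * cn v - sn u * sn v) := by
    rw [hW]
    simp only [mk_ad, ad_mk, mk_sm, sm_mk]
    rw [mk_cm n2 n0, mk_cm n1 n0, mk_cm n2 n1, hC.u0, hC.u1, hC.u2, hC.e02, hC.e12, hC.e01]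
    ring_nf
    rw [hc1, hc2]
    ring
  have e2 : mk O.1 W = 0 := by
    rw [hW]
    simp only [mk_ad, mk_sm, o0, o1, o2]
    ring
  have e3 : mk x.1 W = sn u * mk x.1 n1 := by
    rw [hW]
    simp only [mk_ad, mk_sm, hC.xa, hC.xc]
    ring
  have h0 : W = 0 := by
    refine spacelike O W e2 ?_
    rw [e1]
    have : 0 ≤ cn w + cn u * cn v - sn u * sn v := by linarith
    positivity
  rw [h0] at e3
  have e4 : mk x.1 (0 : V4) = 0 := by simp [mk]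
  rw [e4] at e3
  have h5 := hC.xb
  rcases mul_eq_zero.1 e3.symm with h | h
  · linarith
  · linarith

end Pool.Agent.H42.ODG
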